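import Mathlib

/-!
# Block parallel addition on a binary alphabet

We show that there is a base with a binary alphabet on which addition is block parallel: the base
`β ≈ -1.3247` (the real root of `x³ - x + 1`, minus the plastic number), the alphabet `{0, 1}` and
blocks of length `k = 20`.  The conversion in base `γ = β^20` is `3`-local, of the form
`v_j = u_j + c_j - γ c_(j+1)` with carries `c_j = cL(u_(j-1)) + cR(u_j)`, where `cL`, `cR` take
values in explicit finite sets `QL`, `QR` of elements of `ℤ[β]`.  What makes it work is a finite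
certificate: every `d ∈ A_(20) + A_(20)` can be written so that `e = d + r - γ q` (`q ∈ QL`,
`r ∈ QR`) satisfies `e + q' - γ r' ∈ A_(20)` for all `q' ∈ QL`, `r' ∈ QR`.  Elements of `ℤ[β]` are
coded as bit positions of large natural numbers, sets of them as such numbers, and the kernel checks
the certificate with the bit operations on natural numbers.
-/

open scoped Pointwise

namespace Pool.Agent.Results.MP_8e4c55_nt.BinaryBlock

/-! ### Definitions for the statement -/

/-- An alphabet: a finite set of consecutive integers containing `0`. -/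
def IsAlphabet (A : Set ℤ) : Prop := ∃ m n : ℤ, m ≤ 0 ∧ 0 ≤ n ∧ A = Set.Icc m n

/-- A binary alphabet: an alphabet with exactly two elements. -/
def IsBinaryAlphabet (A : Set ℤ) : Prop := IsAlphabet A ∧ A.ncard = 2

/-- `φ : D^ℤ → E^ℤ` is `p`-local. -/
def IsLocal {D E : Set ℂ} (p : ℕ) (φ : (ℤ → D) → (ℤ → E)) : Prop :=
  ∃ r t : ℕ, p = r + t + 1 ∧ ∃ Φ : (Fin p → D) → E,
    ∀ (u : ℤ → D) (j : ℤ), φ u j = Φ (fun i : Fin p => u (j + t - (i : ℕ)))

/-- `φ` is a digit set conversion in base `b` from `D` to `E`. -/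
def IsDigitSetConversion (b : ℂ) {D E : Set ℂ} (φ : (ℤ → D) → (ℤ → E)) : Prop :=
  ∀ u : ℤ → D, (Function.support fun j => (u j : ℂ)).Finite →
    (Function.support fun j => (φ u j : ℂ)).Finite ∧
      ∑ᶠ j : ℤ, (φ u j : ℂ) * b ^ j = ∑ᶠ j : ℤ, (u j : ℂ) * b ^ j

/-- The digit set `A_(k) = {a₀ + a₁ β + ⋯ + a_(k-1) β^(k-1) : a_i ∈ A}`. -/
def blockDigits (A : Set ℤ) (β : ℂ) (k : ℕ) : Set ℂ :=
  {z | ∃ a : Fin k → ℤ, (∀ i, a i ∈ A) ∧ z = ∑ i : Fin k, (a i : ℂ) * β ^ (i : ℕ)}

/-- Addition on `A` is `k`-block parallel in base `β`: some digit set conversion in base `β^k` from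
`A_(k) + A_(k)` to `A_(k)` is `p`-local for some `p`. -/
def IsKBlockParallel (A : Set ℤ) (β : ℂ) (k : ℕ) : Prop :=
  ∃ p : ℕ, ∃ φ : (ℤ → ↥(blockDigits A β k + blockDigits A β k)) → (ℤ → ↥(blockDigits A β k)),
    IsDigitSetConversion (β ^ k) φ ∧ IsLocal p φ

/-- Addition on `A` is block parallel in base `β`. -/
def IsBlockParallel (A : Set ℤ) (β : ℂ) : Prop := ∃ k : ℕ, 1 ≤ k ∧ IsKBlockParallel A β k

/-! ### The abstract carry scheme -/

/-- `e` stays in the digit set after adding any incoming carries. -/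
def Good (A : Set ℤ) (β : ℂ) (k : ℕ) (QL QR : Set ℂ) (e : ℂ) : Prop :=
  ∀ q ∈ QL, ∀ r ∈ QR, e + q - β ^ k * r ∈ blockDigits A β k

theorem parallel_of_carries (A : Set ℤ) (β : ℂ) (hβ : β ≠ 0) (k : ℕ) (QL QR : Set ℂ)
    (h0L : (0 : ℂ) ∈ QL) (h0R : (0 : ℂ) ∈ QR)
    (H0 : Good A β k QL QR 0)
    (H : ∀ d ∈ blockDigits A β k + blockDigits A β k, ∃ q ∈ QL, ∃ r ∈ QR,
      Good A β k QL QR (d + r - β ^ k * q)) :
    IsKBlockParallel A β k := by
  classical
  set γ := β ^ k with hγ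
  set D := blockDigits A β k + blockDigits A β k with hD
  have hγ0 : γ ≠ 0 := pow_ne_zero _ hβ
  have H' : ∀ d : ℂ, ∃ qr : ℂ × ℂ, qr.1 ∈ QL ∧ qr.2 ∈ QR ∧ (d = 0 → qr = 0) ∧
      (d ∈ D → Good A β k QL QR (d + qr.2 - γ * qr.1)) := by
    intro d
    by_cases hd0 : d = 0
    · refine ⟨0, h0L, h0R, fun _ => rfl, fun _ => ?_⟩
      simpa [hd0] using H0
    · by_cases hd : d ∈ D
      · obtain ⟨q, hq, r, hr, hg⟩ := H d hd
        exact ⟨(q, r), hq, hr, fun h => absurd h hd0, fun _ => hg⟩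
      · exact ⟨0, h0L, h0R, fun _ => rfl, fun h => absurd h hd⟩
  choose c hcL hcR hc0 hcG using H'
  have hc00 : c 0 = 0 := hc0 0 rfl
  refine ⟨3, fun u j => ⟨(u j : ℂ) + (c (u j)).2 - γ * (c (u j)).1 + (c (u (j - 1))).1
      - γ * (c (u (j + 1))).2, ?_⟩, ?_, ?_⟩
  · exact hcG _ (u j).2 _ (hcL _) _ (hcR _)
  · intro u hu
    set S := Function.support fun j => (u j : ℂ) with hS
    have hS1 : (Function.support fun j : ℤ => ((u (j - 1) : D) : ℂ)).Finite := by
      have : (Function.support fun j : ℤ => ((u (j - 1) : D) : ℂ)) =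
          (fun j : ℤ => j - 1) ⁻¹' S := by
        ext j; simp [hS]
      rw [this]
      exact hu.preimage (fun a _ b _ h => by simpa using h)
    have hS2 : (Function.support fun j : ℤ => ((u (j + 1) : D) : ℂ)).Finite := by
      have : (Function.support fun j : ℤ => ((u (j + 1) : D) : ℂ)) =
          (fun j : ℤ => j + 1) ⁻¹' S := by
        ext j; simp [hS]
      rw [this]
      exact hu.preimage (fun a _ b _ h => by simpa using h)
    -- the carries
    let cc : ℤ → ℂ := fun j => (c (u (j - 1))).1 + (c (u j)).2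
    have hcc : (Function.support cc).Finite := by
      refine (hS1.union hu).subset ?_
      intro j hj
      by_contra hcon
      rw [Set.mem_union, not_or] at hcon
      obtain ⟨h1, h2⟩ := hcon
      have h1' : ((u (j - 1) : D) : ℂ) = 0 := by simpa using h1
      have h2' : ((u j : D) : ℂ) = 0 := by simpa [hS] using h2
      apply hj
      simp [cc, h1', h2', hc00]
    have hval : ∀ j : ℤ, (u j : ℂ) + (c (u j)).2 - γ * (c (u j)).1 + (c (u (j - 1))).1
      - γ * (c (u (j + 1))).2 = (u j : ℂ) + cc j - γ * cc (j + 1) := by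
      intro j
      simp only [cc, add_sub_cancel_right]
      ring
    constructor
    · refine ((hS1.union hu).union hS2).subset ?_
      intro j hj
      by_contra hcon
      rw [Set.mem_union, Set.mem_union, not_or, not_or] at hcon
      obtain ⟨⟨h1, h2⟩, h3⟩ := hcon
      have h1' : ((u (j - 1) : D) : ℂ) = 0 := by simpa using h1
      have h2' : ((u j : D) : ℂ) = 0 := by simpa [hS] using h2
      have h3' : ((u (j + 1) : D) : ℂ) = 0 := by simpa using h3
      apply hj
      simp [h1', h2', h3', hc00]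
    · have e1 : ∀ j : ℤ, ((u j : ℂ) + (c (u j)).2 - γ * (c (u j)).1 + (c (u (j - 1))).1
          - γ * (c (u (j + 1))).2) * γ ^ j = (u j : ℂ) * γ ^ j + (cc j * γ ^ j -
            cc (j + 1) * γ ^ (j + 1)) := by
        intro j
        rw [hval, zpow_add_one₀ hγ0]
        ring
      have f0 : (Function.support fun j : ℤ => (u j : ℂ) * γ ^ j).Finite :=
        hu.subset fun j hj => by
          simp only [Function.mem_support, ne_eq, mul_eq_zero, not_or] at hj
          exact hj.1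
      have f1 : (Function.support fun j : ℤ => cc j * γ ^ j).Finite :=
        hcc.subset fun j hj => by
          simp only [Function.mem_support, ne_eq, mul_eq_zero, not_or] at hj
          exact hj.1
      have f2 : (Function.support fun j : ℤ => cc (j + 1) * γ ^ (j + 1)).Finite := by
        have : (Function.support fun j : ℤ => cc (j + 1) * γ ^ (j + 1)) =
            (fun j : ℤ => j + 1) ⁻¹' (Function.support fun j : ℤ => cc j * γ ^ j) := by
          ext j; simp
        rw [this]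
        exact f1.preimage (fun a _ b _ h => by simpa using h)
      have e2 : ∑ᶠ j : ℤ, cc (j + 1) * γ ^ (j + 1) = ∑ᶠ j : ℤ, cc j * γ ^ j :=
        finsum_comp_equiv (Equiv.addRight (1 : ℤ)) (f := fun j : ℤ => cc j * γ ^ j)
      calc _ = ∑ᶠ j : ℤ, ((u j : ℂ) * γ ^ j + (cc j * γ ^ j - cc (j + 1) * γ ^ (j + 1))) :=
            finsum_congr e1
        _ = ∑ᶠ j : ℤ, (u j : ℂ) * γ ^ j +
              ∑ᶠ j : ℤ, (cc j * γ ^ j - cc (j + 1) * γ ^ (j + 1)) :=
            finsum_add_distrib f0 ((f1.union f2).subset (Function.support_sub _ _))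
        _ = ∑ᶠ j : ℤ, (u j : ℂ) * γ ^ j +
              (∑ᶠ j : ℤ, cc j * γ ^ j - ∑ᶠ j : ℤ, cc (j + 1) * γ ^ (j + 1)) := by
            rw [finsum_sub_distrib f1 f2]
        _ = _ := by rw [e2, sub_self, add_zero]
  · refine ⟨1, 1, rfl, fun x => ⟨(x 1 : ℂ) + (c (x 1)).2 - γ * (c (x 1)).1 + (c (x 2)).1
      - γ * (c (x 0)).2, ?_⟩, ?_⟩
    · exact hcG _ (x 1).2 _ (hcL _) _ (hcR _)
    · intro u j
      have i0 : j + (1 : ℕ) - ((0 : Fin 3) : ℕ) = j + 1 := by simp
      have i1 : j + (1 : ℕ) - ((1 : Fin 3) : ℕ) = j := by simp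
      have i2 : j + (1 : ℕ) - ((2 : Fin 3) : ℕ) = j - 1 := by
        have : (((2 : Fin 3) : ℕ) : ℤ) = 2 := rfl
        rw [this]; push_cast; ring
      apply Subtype.ext
      simp only [i0, i1, i2]


/-- coordinates with respect to `1, β, β²` where `β³ = β - 1` -/
abbrev V := ℤ × ℤ × ℤ

def mulx (v : V) : V := (-v.2.2, v.1 + v.2.2, v.2.1)
def divx (v : V) : V := (v.2.1 + v.1, v.2.2, -v.1)

def up (v : V) : V := mulx^[10] v
def dn (v : V) : V := divx^[10] v

/-- `w i` are the coordinates of `β^(i-10)` -/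
def w : ℕ → V
  | 0 => (4, -1, -3)
  | (n + 1) => mulx (w n)

def idx (v : V) : ℤ := v.1 + 128 * v.2.1 + 16384 * v.2.2

def sh (m : ℕ) (i : ℤ) : ℕ :=
  match i with
  | Int.ofNat n => m <<< n
  | Int.negSucc n => m >>> (n + 1)

def O : ℕ := 424952

def QL : List V := [(0,0,0),(-1,0,0),(-1,1,0),(-1,0,1),(0,-1,1),(0,0,1)]

def QR : List V := [(0,0,0),(1,2,1),(1,-3,-3),(-1,-3,-2),(3,-3,-4),(2,1,-1),(-2,1,2),(-1,-1,0),
  (4,1,-2),(4,-2,-4),(2,-1,-2),(-1,2,2),(-3,0,1),(1,-2,-2),(1,1,0),(4,-1,-3),(-3,-2,0),(2,2,0),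
  (-1,-2,-1),(1,-4,-4),(-2,0,1),(0,2,1),(-3,1,2),(-2,3,3)]

def W : List V := (List.range' 0 20).map w

def step (m : ℕ) (v : V) : ℕ := m ||| sh m (idx v)

def maskA : ℕ := W.foldl step (1 <<< O)
def maskD : ℕ := W.foldl step maskA

def pairs : List (V × V) := QL.product QR

def maskE : ℕ := pairs.foldl (fun m qr => m &&& sh maskA (-(idx (dn qr.1) - idx (up qr.2)))) maskA
def maskU : ℕ := pairs.foldl (fun m qr => m ||| sh maskE (-(idx (dn qr.2) - idx (up qr.1)))) 0

def check : Bool := (maskD ||| maskU == maskU) && maskE.testBit O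

theorem check_true : check = true := by decide +kernel

/-- bit membership with an integer position -/
def tb (m : ℕ) (n : ℤ) : Prop := 0 ≤ n ∧ m.testBit n.toNat = true

lemma tb_or {a b : ℕ} {n : ℤ} : tb (a ||| b) n ↔ tb a n ∨ tb b n := by
  unfold tb
  rw [Nat.testBit_or, Bool.or_eq_true]
  tauto

lemma tb_and {a b : ℕ} {n : ℤ} : tb (a &&& b) n ↔ tb a n ∧ tb b n := by
  unfold tb
  rw [Nat.testBit_and, Bool.and_eq_true]
  tauto

lemma tb_sh {m : ℕ} {i n : ℤ} (hn : 0 ≤ n) : tb (sh m i) n ↔ tb m (n - i) := by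
  unfold tb sh
  cases i with
  | ofNat k =>
    simp only [Nat.testBit_shiftLeft, Bool.and_eq_true, decide_eq_true_eq]
    constructor
    · rintro ⟨-, h1, h2⟩
      have h3 : (k : ℤ) ≤ n := by omega
      refine ⟨by simpa using h3, ?_⟩
      have : (n - Int.ofNat k).toNat = n.toNat - k := by
        simp only [Int.ofNat_eq_natCast]; omega
      rw [this]; exact h2
    · rintro ⟨h1, h2⟩
      simp only [Int.ofNat_eq_natCast] at h1 h2
      refine ⟨hn, by omega, ?_⟩
      have : (n - (k : ℤ)).toNat = n.toNat - k := by omega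
      rw [← this]; exact h2
  | negSucc k =>
    simp only [Nat.testBit_shiftRight]
    have : (n - Int.negSucc k).toNat = k + 1 + n.toNat := by
      rw [Int.negSucc_eq]; omega
    rw [this]
    constructor
    · rintro ⟨-, h2⟩
      refine ⟨?_, h2⟩
      rw [Int.negSucc_eq]; omega
    · rintro ⟨-, h2⟩
      exact ⟨hn, h2⟩

lemma idx_add (a b : V) : idx (a + b) = idx a + idx b := by
  simp only [idx, Prod.fst_add, Prod.snd_add]; ring

lemma idx_sub (a b : V) : idx (a - b) = idx a - idx b := by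
  simp only [idx, Prod.fst_sub, Prod.snd_sub]; ring

lemma idx_smul (c : ℤ) (a : V) : idx (c • a) = c * idx a := by
  simp only [idx, Prod.smul_fst, Prod.smul_snd, smul_eq_mul]; ring

/-- digit sums along a list -/
def lsum : (ℕ → ℤ) → List V → V
  | _, [] => 0
  | a, v :: L => a 0 • v + lsum (fun i => a (i + 1)) L

def Bin (a : ℕ → ℤ) : Prop := ∀ i, a i = 0 ∨ a i = 1

lemma Bin.tail {a : ℕ → ℤ} (h : Bin a) : Bin (fun i => a (i + 1)) := fun i => h (i + 1)

def cons (x : ℤ) (a : ℕ → ℤ) : ℕ → ℤ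
  | 0 => x
  | (n + 1) => a n

lemma Bin.cons {a : ℕ → ℤ} (h : Bin a) {x : ℤ} (hx : x = 0 ∨ x = 1) : Bin (cons x a) := by
  intro i
  cases i with
  | zero => exact hx
  | succ n => exact h n

lemma step_sound (L : List V) : ∀ (m : ℕ) (n : ℤ), tb (L.foldl step m) n →
    ∃ a, Bin a ∧ tb m (n - idx (lsum a L)) := by
  induction L with
  | nil =>
    intro m n h
    exact ⟨fun _ => 0, fun _ => Or.inl rfl, by simpa [lsum, idx] using h⟩
  | cons v L ih =>
    intro m n h
    rw [List.foldl_cons] at h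
    obtain ⟨a, ha, h1⟩ := ih _ _ h
    have hn := h1.1
    unfold step at h1
    rw [tb_or] at h1
    rcases h1 with h1 | h1
    · refine ⟨cons 0 a, ha.cons (Or.inl rfl), ?_⟩
      have : lsum (cons 0 a) (v :: L) = lsum a L := by
        simp [lsum, cons]
      rw [this]; exact h1
    · rw [tb_sh hn] at h1
      refine ⟨cons 1 a, ha.cons (Or.inr rfl), ?_⟩
      have : lsum (cons 1 a) (v :: L) = v + lsum a L := by
        simp [lsum, cons]
      rw [this, idx_add]
      have e : n - (idx v + idx (lsum a L)) = n - idx (lsum a L) - idx v := by ring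
      rw [e]; exact h1

/-- total of the negative parts of the indices -/
def nb : List V → ℤ
  | [] => 0
  | v :: L => max 0 (-idx v) + nb L

lemma nb_nonneg (L : List V) : 0 ≤ nb L := by
  induction L with
  | nil => exact le_rfl
  | cons v L ih => exact add_nonneg (le_max_left _ _) ih

lemma neg_nb_le (L : List V) : ∀ a, Bin a → - nb L ≤ idx (lsum a L) := by
  induction L with
  | nil => intro a _; simp [lsum, nb, idx]
  | cons v L ih =>
    intro a ha
    have h1 := ih _ ha.tail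
    rw [lsum, nb, idx_add, idx_smul]
    have h2 : -max 0 (-idx v) ≤ a 0 * idx v := by
      rcases ha 0 with h | h
      · rw [h]; simp
      · rw [h]
        have := le_max_right 0 (-idx v)
        omega
    omega

lemma step_complete (L : List V) : ∀ (m : ℕ) (n : ℤ) (a : ℕ → ℤ), Bin a → nb L ≤ n → tb m n →
    tb (L.foldl step m) (n + idx (lsum a L)) := by
  induction L with
  | nil => intro m n a _ _ h; simpa [lsum, idx] using h
  | cons v L ih =>
    intro m n a ha hn h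
    rw [List.foldl_cons, lsum, idx_add, idx_smul, ← add_assoc]
    have h2 : -max 0 (-idx v) ≤ a 0 * idx v := by
      rcases ha 0 with h | h
      · rw [h]; simp
      · rw [h]
        have := le_max_right 0 (-idx v)
        omega
    rw [nb] at hn
    have h3 := nb_nonneg L
    refine ih _ _ _ ha.tail (by omega) ?_
    unfold step
    rw [tb_or]
    rcases ha 0 with h0 | h0
    · left; rw [h0]; simpa using h
    · right
      rw [tb_sh (by omega), h0]
      simpa using h

lemma or_sound {α : Type*} (f : α → ℕ) (L : List α) : ∀ (m : ℕ) (n : ℤ),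
    tb (L.foldl (fun m x => m ||| f x) m) n → tb m n ∨ ∃ x ∈ L, tb (f x) n := by
  induction L with
  | nil => intro m n h; exact Or.inl h
  | cons v L ih =>
    intro m n h
    rw [List.foldl_cons] at h
    rcases ih _ _ h with h1 | ⟨x, hx, h1⟩
    · rw [tb_or] at h1
      rcases h1 with h1 | h1
      · exact Or.inl h1
      · exact Or.inr ⟨v, List.mem_cons_self, h1⟩
    · exact Or.inr ⟨x, List.mem_cons_of_mem _ hx, h1⟩

lemma and_sound {α : Type*} (f : α → ℕ) (L : List α) : ∀ (m : ℕ) (n : ℤ),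
    tb (L.foldl (fun m x => m &&& f x) m) n → tb m n ∧ ∀ x ∈ L, tb (f x) n := by
  induction L with
  | nil => intro m n h; exact ⟨h, by simp⟩
  | cons v L ih =>
    intro m n h
    rw [List.foldl_cons] at h
    obtain ⟨h1, h2⟩ := ih _ _ h
    rw [tb_and] at h1
    refine ⟨h1.1, fun x hx => ?_⟩
    rcases List.mem_cons.1 hx with rfl | hx
    · exact h1.2
    · exact h2 x hx

lemma tb_one_shift {n : ℤ} (h : tb (1 <<< O) n) : n = O := by
  obtain ⟨h1, h2⟩ := h
  rw [Nat.one_shiftLeft, Nat.testBit_two_pow] at h2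
  simp only [decide_eq_true_eq] at h2
  omega

lemma tb_one_shift_self : tb (1 <<< O) O := by
  refine ⟨by positivity, ?_⟩
  rw [Nat.one_shiftLeft, Nat.testBit_two_pow]
  simp

lemma nbW : nb W + nb W ≤ O := by decide +kernel

/-- every digit sum of two binary blocks sits in the big mask -/
lemma maskD_complete (a b : ℕ → ℤ) (ha : Bin a) (hb : Bin b) :
    tb maskD ((O : ℤ) + idx (lsum a W + lsum b W)) := by
  rw [idx_add, ← add_assoc]
  have h1 := nbW
  have h2 := nb_nonneg W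
  have h3 := neg_nb_le W a ha
  apply step_complete _ _ _ _ hb (by omega)
  apply step_complete _ _ _ _ ha (by omega)
  exact tb_one_shift_self

lemma maskA_sound {n : ℤ} (h : tb maskA n) : ∃ a, Bin a ∧ n = (O : ℤ) + idx (lsum a W) := by
  obtain ⟨a, ha, h1⟩ := step_sound _ _ _ h
  refine ⟨a, ha, ?_⟩
  have := tb_one_shift h1
  omega

lemma maskE_sound {n : ℤ} (h : tb maskE n) : ∀ q ∈ QL, ∀ r ∈ QR,
    ∃ a, Bin a ∧ n + idx (dn q - up r) = (O : ℤ) + idx (lsum a W) := by
  intro q hq r hr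
  have hn := h.1
  obtain ⟨-, h2⟩ := and_sound _ _ _ _ h
  have h3 := h2 (q, r) (List.pair_mem_product.2 ⟨hq, hr⟩)
  rw [tb_sh hn] at h3
  obtain ⟨a, ha, h4⟩ := maskA_sound h3
  refine ⟨a, ha, ?_⟩
  rw [idx_sub, ← h4]
  ring

lemma maskU_sound {n : ℤ} (h : tb maskU n) : ∃ q ∈ QL, ∃ r ∈ QR,
    tb maskE (n + idx (dn r - up q)) := by
  have hn := h.1
  rcases or_sound _ _ _ _ h with h1 | ⟨⟨q, r⟩, hx, h1⟩
  · simp [tb] at h1
  · obtain ⟨hq, hr⟩ := List.pair_mem_product.1 hx
    refine ⟨q, hq, r, hr, ?_⟩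
    rw [tb_sh hn] at h1
    rw [idx_sub]
    have e : n + (idx (dn r) - idx (up q)) = n - -(idx (dn r) - idx (up q)) := by ring
    rw [e]; exact h1

lemma cover {n : ℤ} (h : tb maskD n) : tb maskU n := by
  have hc := check_true
  unfold check at hc
  rw [Bool.and_eq_true, beq_iff_eq] at hc
  rw [← hc.1, tb_or]
  exact Or.inl h

lemma zero_mem : tb maskE O := by
  have hc := check_true
  unfold check at hc
  rw [Bool.and_eq_true] at hc
  exact ⟨by positivity, by simpa using hc.2⟩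

/-! ### Injectivity of the index on small vectors -/

lemma idx_inj {x : V} (h : idx x = 0) (h1 : |x.1| < 128) (h2 : |x.2.1| < 128) : x = 0 := by
  obtain ⟨a, b, c⟩ := x
  simp only [idx] at h h1 h2
  rw [abs_lt] at h1 h2
  have ha : a = 0 := by omega
  have hb : b = 0 := by omega
  have hc : c = 0 := by omega
  rw [ha, hb, hc]; rfl

def sb (f : V → ℤ) : List V → ℤ
  | [] => 0
  | v :: L => |f v| + sb f L

lemma lsum_bound1 (L : List V) : ∀ a, Bin a → |(lsum a L).1| ≤ sb (fun v => v.1) L := by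
  induction L with
  | nil => intro a _; simp [lsum, sb]
  | cons v L ih =>
    intro a ha
    have h1 := ih _ ha.tail
    rw [lsum, sb, Prod.fst_add, Prod.smul_fst, smul_eq_mul]
    refine (abs_add_le _ _).trans (add_le_add ?_ h1)
    rcases ha 0 with h | h <;> rw [h] <;> simp

lemma lsum_bound2 (L : List V) : ∀ a, Bin a → |(lsum a L).2.1| ≤ sb (fun v => v.2.1) L := by
  induction L with
  | nil => intro a _; simp [lsum, sb]
  | cons v L ih =>
    intro a ha
    have h1 := ih _ ha.tail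
    rw [lsum, sb, Prod.snd_add, Prod.fst_add, Prod.smul_snd, Prod.smul_fst, smul_eq_mul]
    refine (abs_add_le _ _).trans (add_le_add ?_ h1)
    rcases ha 0 with h | h <;> rw [h] <;> simp

lemma sbW1 : sb (fun v => v.1) W = 25 := by decide +kernel
lemma sbW2 : sb (fun v => v.2.1) W = 25 := by decide +kernel

lemma boundQL : ∀ q ∈ QL, |(up q).1| ≤ 9 ∧ |(up q).2.1| ≤ 16 ∧ |(dn q).1| ≤ 4 ∧ |(dn q).2.1| ≤ 3 := by
  decide +kernel

lemma boundQR : ∀ r ∈ QR, |(up r).1| ≤ 4 ∧ |(up r).2.1| ≤ 6 ∧ |(dn r).1| ≤ 18 ∧ |(dn r).2.1| ≤ 14 := by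
  decide +kernel

/-- the combinatorial certificate in terms of vectors -/
lemma cert (a b : ℕ → ℤ) (ha : Bin a) (hb : Bin b) :
    ∃ q ∈ QL, ∃ r ∈ QR, ∀ q' ∈ QL, ∀ r' ∈ QR, ∃ c, Bin c ∧
      lsum a W + lsum b W + (dn r - up q) + (dn q' - up r') = lsum c W := by
  obtain ⟨q, hq, r, hr, h1⟩ := maskU_sound (cover (maskD_complete a b ha hb))
  refine ⟨q, hq, r, hr, fun q' hq' r' hr' => ?_⟩
  obtain ⟨c, hc, h2⟩ := maskE_sound h1 q' hq' r' hr'
  refine ⟨c, hc, ?_⟩
  rw [← sub_eq_zero]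
  have a1 := lsum_bound1 W a ha
  have a2 := lsum_bound2 W a ha
  have b1 := lsum_bound1 W b hb
  have b2 := lsum_bound2 W b hb
  have c1 := lsum_bound1 W c hc
  have c2 := lsum_bound2 W c hc
  obtain ⟨q1, q2, q3, q4⟩ := boundQL q hq
  obtain ⟨q1', q2', q3', q4'⟩ := boundQL q' hq'
  obtain ⟨r1, r2, r3, r4⟩ := boundQR r hr
  obtain ⟨r1', r2', r3', r4'⟩ := boundQR r' hr'
  rw [sbW1] at a1 b1 c1
  rw [sbW2] at a2 b2 c2
  rw [abs_le] at a1 a2 b1 b2 c1 c2 q1 q2 q3 q4 q1' q2' q3' q4' r1 r2 r3 r4 r1' r2' r3' r4'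
  apply idx_inj
  · rw [idx_sub, idx_add, idx_add]
    omega
  · simp only [Prod.fst_sub, Prod.fst_add]
    rw [abs_lt]
    constructor <;> omega
  · simp only [Prod.fst_sub, Prod.fst_add, Prod.snd_sub, Prod.snd_add]
    rw [abs_lt]
    constructor <;> omega

lemma cert0 : ∀ q' ∈ QL, ∀ r' ∈ QR, ∃ c, Bin c ∧ dn q' - up r' = lsum c W := by
  intro q' hq' r' hr'
  obtain ⟨c, hc, h2⟩ := maskE_sound zero_mem q' hq' r' hr'
  refine ⟨c, hc, ?_⟩
  rw [← sub_eq_zero]
  have c1 := lsum_bound1 W c hc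
  have c2 := lsum_bound2 W c hc
  obtain ⟨q1', q2', q3', q4'⟩ := boundQL q' hq'
  obtain ⟨r1', r2', r3', r4'⟩ := boundQR r' hr'
  rw [sbW1] at c1
  rw [sbW2] at c2
  rw [abs_le] at c1 c2 q1' q2' q3' q4' r1' r2' r3' r4'
  apply idx_inj
  · rw [idx_sub]
    omega
  · simp only [Prod.fst_sub]
    rw [abs_lt]
    constructor <;> omega
  · simp only [Prod.fst_sub, Prod.snd_sub]
    rw [abs_lt]
    constructor <;> omega


/-! ### Evaluation at `β` -/

noncomputable def ev (β : ℂ) (v : V) : ℂ := (v.1 : ℂ) + (v.2.1 : ℂ) * β + (v.2.2 : ℂ) * β ^ 2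

lemma ev_add (β : ℂ) (u v : V) : ev β (u + v) = ev β u + ev β v := by
  simp only [ev, Prod.fst_add, Prod.snd_add, Int.cast_add]; ring

lemma ev_sub (β : ℂ) (u v : V) : ev β (u - v) = ev β u - ev β v := by
  simp only [ev, Prod.fst_sub, Prod.snd_sub, Int.cast_sub]; ring

lemma ev_smul (β : ℂ) (c : ℤ) (v : V) : ev β (c • v) = (c : ℂ) * ev β v := by
  simp only [ev, Prod.smul_fst, Prod.smul_snd, smul_eq_mul, Int.cast_mul]; ring

lemma ev_mulx {β : ℂ} (hβ : β ^ 3 - β + 1 = 0) (v : V) : ev β (mulx v) = β * ev β v := by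
  simp only [ev, mulx, Int.cast_neg, Int.cast_add]
  linear_combination (-(v.2.2 : ℂ)) * hβ

lemma ev_divx {β : ℂ} (hβ : β ^ 3 - β + 1 = 0) (v : V) : β * ev β (divx v) = ev β v := by
  simp only [ev, divx, Int.cast_neg, Int.cast_add]
  linear_combination (-(v.1 : ℂ)) * hβ

lemma ev_up {β : ℂ} (hβ : β ^ 3 - β + 1 = 0) (v : V) : ev β (up v) = β ^ 10 * ev β v := by
  unfold up
  have : ∀ n : ℕ, ev β (mulx^[n] v) = β ^ n * ev β v := by
    intro n
    induction n with
    | zero => simp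
    | succ n ih => rw [Function.iterate_succ_apply', ev_mulx hβ, ih, pow_succ]; ring
  exact this 10

lemma ev_dn {β : ℂ} (hβ : β ^ 3 - β + 1 = 0) (v : V) : β ^ 10 * ev β (dn v) = ev β v := by
  unfold dn
  have : ∀ n : ℕ, β ^ n * ev β (divx^[n] v) = ev β v := by
    intro n
    induction n with
    | zero => simp
    | succ n ih =>
      rw [Function.iterate_succ_apply', pow_succ, mul_assoc, ev_divx hβ, ih]
  exact this 10

lemma ev_w {β : ℂ} (hβ : β ^ 3 - β + 1 = 0) (n : ℕ) : β ^ 10 * ev β (w n) = β ^ n := by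
  induction n with
  | zero =>
    have h : w 0 = dn (1, 0, 0) := by decide
    rw [h, ev_dn hβ]
    simp [ev]
  | succ n ih =>
    rw [w, ev_mulx hβ, pow_succ β n, ← ih]; ring

lemma ev_lsum {β : ℂ} (hβ : β ^ 3 - β + 1 = 0) (n : ℕ) : ∀ (s : ℕ) (a : ℕ → ℤ),
    β ^ 10 * ev β (lsum a ((List.range' s n).map w)) =
      ∑ i ∈ Finset.range n, (a i : ℂ) * β ^ (s + i) := by
  induction n with
  | zero => intro s a; simp [lsum, ev]
  | succ n ih =>
    intro s a
    rw [List.range'_succ, List.map_cons, lsum, ev_add, mul_add, ih, Finset.sum_range_succ',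
      ev_smul]
    rw [add_comm]
    congr 1
    · refine Finset.sum_congr rfl fun i _ => ?_
      congr 2; ring
    · rw [add_zero]
      have := ev_w hβ s
      linear_combination (a 0 : ℂ) * this

/-- extend a finite digit string by zeros -/
def ext0 (a : Fin 20 → ℤ) : ℕ → ℤ := fun i => if h : i < 20 then a ⟨i, h⟩ else 0

lemma mem_blockDigits_of_bin {β : ℂ} (hβ : β ^ 3 - β + 1 = 0) (a : ℕ → ℤ) (ha : Bin a) :
    β ^ 10 * ev β (lsum a W) ∈ blockDigits {0, 1} β 20 := by
  refine ⟨fun i => a i, fun i => ?_, ?_⟩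
  · simpa using ha i
  · unfold W
    rw [ev_lsum hβ, Finset.sum_range]
    refine Finset.sum_congr rfl fun i _ => ?_
    rw [zero_add]

lemma exists_bin_of_mem {β : ℂ} (hβ : β ^ 3 - β + 1 = 0) {z : ℂ}
    (hz : z ∈ blockDigits {0, 1} β 20) : ∃ a, Bin a ∧ z = β ^ 10 * ev β (lsum a W) := by
  obtain ⟨a, ha, rfl⟩ := hz
  refine ⟨ext0 a, fun i => ?_, ?_⟩
  · unfold ext0
    split_ifs with h
    · simpa using ha ⟨i, h⟩
    · exact Or.inl rfl
  · unfold W
    rw [ev_lsum hβ, Finset.sum_range]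
    refine Finset.sum_congr rfl fun i _ => ?_
    rw [zero_add]
    simp [ext0]

theorem block20 {β : ℂ} (hβ : β ^ 3 - β + 1 = 0) : IsKBlockParallel {0, 1} β 20 := by
  have hβ0 : β ≠ 0 := by
    rintro rfl
    norm_num at hβ
  apply parallel_of_carries {0, 1} β hβ0 20 (ev β '' {q | q ∈ QL}) (ev β '' {r | r ∈ QR})
  · exact ⟨(0, 0, 0), by decide, by simp [ev]⟩
  · exact ⟨(0, 0, 0), by decide, by simp [ev]⟩
  · rintro _ ⟨q, hq, rfl⟩ _ ⟨r, hr, rfl⟩
    obtain ⟨c, hc, h⟩ := cert0 q hq r hr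
    have h1 := mem_blockDigits_of_bin hβ c hc
    rw [← h, ev_sub, mul_sub, ev_dn hβ, ev_up hβ] at h1
    have e : 0 + ev β q - β ^ 20 * ev β r = ev β q - β ^ 10 * (β ^ 10 * ev β r) := by ring
    rw [e]; exact h1
  · intro d hd
    obtain ⟨z1, hz1, z2, hz2, rfl⟩ := Set.mem_add.1 hd
    obtain ⟨a, ha, rfl⟩ := exists_bin_of_mem hβ hz1
    obtain ⟨b, hb, rfl⟩ := exists_bin_of_mem hβ hz2
    obtain ⟨q, hq, r, hr, h⟩ := cert a b ha hb
    refine ⟨ev β q, ⟨q, hq, rfl⟩, ev β r, ⟨r, hr, rfl⟩, ?_⟩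
    rintro _ ⟨q', hq', rfl⟩ _ ⟨r', hr', rfl⟩
    obtain ⟨c, hc, h'⟩ := h q' hq' r' hr'
    have h1 := mem_blockDigits_of_bin hβ c hc
    rw [← h', ev_add, ev_add, ev_add, ev_sub, ev_sub, mul_add, mul_add, mul_add, mul_sub, mul_sub,
      ev_dn hβ, ev_up hβ, ev_dn hβ, ev_up hβ] at h1
    have e : β ^ 10 * ev β (lsum a W) + β ^ 10 * ev β (lsum b W) + ev β r - β ^ 20 * ev β q + ev β q'
        - β ^ 20 * ev β r' = β ^ 10 * ev β (lsum a W) + β ^ 10 * ev β (lsum b W) +
          (ev β r - β ^ 10 * (β ^ 10 * ev β q)) + (ev β q' - β ^ 10 * (β ^ 10 * ev β r')) := by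
      ring
    rw [e]; exact h1

lemma binary_zero_one : IsBinaryAlphabet {0, 1} := by
  refine ⟨⟨0, 1, le_rfl, zero_le_one, ?_⟩, Set.ncard_pair (by norm_num)⟩
  ext x
  simp only [Set.mem_insert_iff, Set.mem_singleton_iff, Set.mem_Icc]
  omega

lemma exists_root : ∃ x : ℝ, x ^ 3 - x + 1 = 0 ∧ 1 < |x| := by
  have hc : ContinuousOn (fun x : ℝ => x ^ 3 - x + 1) (Set.Icc (-2) (-1)) := by fun_prop
  have h := intermediate_value_Icc (by norm_num : (-2 : ℝ) ≤ -1) hc
  have h0 : (0 : ℝ) ∈ Set.Icc ((fun x : ℝ => x ^ 3 - x + 1) (-2)) ((fun x : ℝ => x ^ 3 - x + 1) (-1)) := by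
    constructor <;> norm_num
  obtain ⟨x, ⟨hx1, hx2⟩, hx⟩ := h h0
  refine ⟨x, hx, ?_⟩
  have hne : x ≠ -1 := by
    rintro rfl
    norm_num at hx
  have : x < -1 := lt_of_le_of_ne hx2 hne
  rw [abs_of_neg (by linarith)]
  linarith

theorem result : ∃ (β : ℂ) (A : Set ℤ), 1 < ‖β‖ ∧ β ^ 3 - β + 1 = 0 ∧ A = {0, 1} ∧
    IsBinaryAlphabet A ∧ IsBlockParallel A β := by
  obtain ⟨x, hx, hx1⟩ := exists_root
  have hβ : (x : ℂ) ^ 3 - (x : ℂ) + 1 = 0 := by exact_mod_cast hx
  refine ⟨(x : ℂ), {0, 1}, ?_, hβ, rfl, binary_zero_one, 20, by norm_num, block20 hβ⟩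
  rw [Complex.norm_real]
  exact hx1

end Pool.Agent.Results.MP_8e4c55_nt.BinaryBlock
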